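import Pool.Agent.H7.HD.Targets2

/-!
# (KA) the ordinals which are singular in HOD are a null set
-/

open Ordinal Cardinal Order Set
open scoped ZFSet

universe u

namespace Pool.Agent.H43.HD.KA

open _root_.HD

/-- the relation with code `c` is a cofinal function from `τ` to `α` -/
def G (en : Ordinal.{u} → ZFSet.{u}) (c τ α : Ordinal.{u}) : Prop :=
  (∀ a < τ, ∃ b < α, b ∈ E2 en c a ∧ ∀ b', b' ∈ E2 en c a → b' = b) ∧
  (∀ b < α, ∃ a < τ, ∃ b', b ≤ b' ∧ b' ∈ E2 en c a)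

/-- `τ` is the least length of such a function -/
def T (en : Ordinal.{u} → ZFSet.{u}) (α τ : Ordinal.{u}) : Prop :=
  τ < α ∧ (∃ c, G en c τ α) ∧ ∀ τ' < τ, ¬ ∃ c, G en c τ' α

/-- `c` is the least code -/
def Q (en : Ordinal.{u} → ZFSet.{u}) (α τ c : Ordinal.{u}) : Prop :=
  G en c τ α ∧ ∀ c' < c, ¬ G en c' τ α

theorem m3 {en : Ordinal.{u} → ZFSet.{u}} (h : DO fun w => w 0 ∈ E2 en (w 2) (w 1))
    (i j k : ℕ) : DO fun w => w i ∈ E2 en (w k) (w j) :=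
  DO.s3 (X := fun b a c => b ∈ E2 en c a) h i j k

theorem do_G {en : Ordinal.{u} → ZFSet.{u}} (h : DO fun w => w 0 ∈ E2 en (w 2) (w 1))
    (i j k : ℕ) : DO fun w => G en (w i) (w j) (w k) := by
  have h0 : DO fun w => G en (w 0) (w 1) (w 2) := by
    refine DO.and ?_ ?_
    · refine DO.allLt 1 (R := fun a w => ∃ b < w 2, b ∈ E2 en (w 0) a ∧
        ∀ b', b' ∈ E2 en (w 0) a → b' = b) ?_
      refine DO.exLt 3 (R := fun b w => b ∈ E2 en (w 1) (w 0) ∧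
        ∀ b', b' ∈ E2 en (w 1) (w 0) → b' = b) ?_
      refine DO.and h ?_
      refine DO.all (R := fun b' w => b' ∈ E2 en (w 2) (w 1) → b' = w 0) ?_
      exact (m3 h 0 2 3).imp (DO.eq 0 1)
    · refine DO.allLt 2 (R := fun b w => ∃ a < w 1, ∃ b', b ≤ b' ∧ b' ∈ E2 en (w 0) a) ?_
      refine DO.exLt 2 (R := fun a w => ∃ b', w 0 ≤ b' ∧ b' ∈ E2 en (w 1) a) ?_
      refine DO.ex (R := fun b' w => w 1 ≤ b' ∧ b' ∈ E2 en (w 2) (w 0)) ?_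
      exact (DO.le 2 0).and (m3 h 0 1 3)
  exact h0.s3 i j k

theorem do_T {en : Ordinal.{u} → ZFSet.{u}} (h : DO fun w => w 0 ∈ E2 en (w 2) (w 1))
    (i j : ℕ) : DO fun w => T en (w i) (w j) := by
  have h0 : DO fun w => T en (w 0) (w 1) := by
    refine (DO.lt 1 0).and (DO.and ?_ ?_)
    · exact DO.ex (R := fun c w => G en c (w 1) (w 0)) (do_G h 0 2 1)
    · refine DO.allLt 1 (R := fun t w => ¬ ∃ c, G en c t (w 0)) (DO.not ?_)
      exact DO.ex (R := fun c w => G en c (w 0) (w 1)) (do_G h 0 1 2)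
  exact h0.s2 i j

theorem do_Q {en : Ordinal.{u} → ZFSet.{u}} (h : DO fun w => w 0 ∈ E2 en (w 2) (w 1))
    (i j k : ℕ) : DO fun w => Q en (w i) (w j) (w k) := by
  have h0 : DO fun w => Q en (w 0) (w 1) (w 2) := by
    refine (do_G h 2 1 0).and ?_
    exact DO.allLt 2 (R := fun c w => ¬ G en c (w 1) (w 0)) (do_G h 0 2 1).not
  exact h0.s3 i j k

theorem sing_iff (hEA : T_EA.{u}) {en : Ordinal.{u} → ZFSet.{u}} (hen : EN en)
    (α : Ordinal.{u}) : SingHOD α ↔ ∃ τ < α, ∃ c, G en c τ α := by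
  have h2 := (hEA en hen).2.1
  constructor
  · rintro ⟨τ, hτ, f, hf, hfn, hcf⟩
    obtain ⟨c, rfl⟩ := (hen.od _).1 hf.od
    refine ⟨τ, hτ, c, fun a ha => ?_, fun b hb => ?_⟩
    · obtain ⟨x, hx, hux⟩ := hfn.2 a.toZFSet (toZFSet_mem_toZFSet_iff.2 ha)
      obtain ⟨b, hb, rfl⟩ := mem_toZFSet_iff.1 (ZFSet.pair_mem_prod.1 (hfn.1 hx)).2
      exact ⟨b, hb, hx, fun b' hb' => toZFSet_injective (hux _ hb')⟩
    · obtain ⟨a, ha, b', hbb, hp⟩ := hcf b hb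
      exact ⟨a, ha, b', hbb, hp⟩
  · rintro ⟨τ, hτ, c, h3, h4⟩
    have hR : DR fun a b => b ∈ E2 en c a := by
      exact DO.sub c (R := fun c w => w 1 ∈ E2 en c (w 0)) (m3 h2 2 1 0)
    refine ⟨τ, hτ, rs τ α (fun a b => b ∈ E2 en c a), hod_rs hR τ α, ⟨?_, ?_⟩, ?_⟩
    · intro p hp
      obtain ⟨a, ha, b, hb, -, rfl⟩ := mem_rs.1 hp
      exact ZFSet.pair_mem_prod.2 ⟨toZFSet_mem_toZFSet_iff.2 ha, toZFSet_mem_toZFSet_iff.2 hb⟩
    · intro z hz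
      obtain ⟨a, ha, rfl⟩ := mem_toZFSet_iff.1 hz
      obtain ⟨b, hb, hbE, hub⟩ := h3 a ha
      refine ⟨b.toZFSet, pair_mem_rs.2 ⟨ha, hb, hbE⟩, ?_⟩
      intro y hy
      obtain ⟨a', ha', b', hb', h5, h6⟩ := mem_rs.1 hy
      obtain ⟨h7, h8⟩ := ZFSet.pair_injective h6
      rw [h8]
      have h9 := toZFSet_injective h7
      rw [← h9] at h5
      rw [hub b' h5]
    · intro b hb
      obtain ⟨a, ha, b', hbb, hE⟩ := h4 b hb
      obtain ⟨b1, hb1, -, hub⟩ := h3 a ha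
      refine ⟨a, ha, b', hbb, pair_mem_rs.2 ⟨ha, ?_, hE⟩⟩
      rw [hub b' hE]
      exact hb1

theorem T.uniq {en : Ordinal.{u} → ZFSet.{u}} {α τ τ' : Ordinal.{u}} (h : T en α τ)
    (h' : T en α τ') : τ = τ' := by
  apply le_antisymm
  · by_contra hlt
    exact h.2.2 τ' (not_le.1 hlt) h'.2.1
  · by_contra hlt
    exact h'.2.2 τ (not_le.1 hlt) h.2.1

theorem Q.uniq {en : Ordinal.{u} → ZFSet.{u}} {α τ c c' : Ordinal.{u}} (h : Q en α τ c)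
    (h' : Q en α τ c') : c = c' := by
  apply le_antisymm
  · by_contra hlt
    exact h.2 c' (not_le.1 hlt) h'.1
  · by_contra hlt
    exact h'.2 c (not_le.1 hlt) h.1

theorem ultra (hEA : T_EA.{u}) {en : Ordinal.{u} → ZFSet.{u}} (hen : EN en)
    {μ κ c : Ordinal.{u}} (hc : Atom en μ κ c) {Y : Set Ordinal.{u}} (hY : DS Y)
    (hP : Pos μ κ {α | α ∈ E en c ∧ α ∈ Y}) : ¬ Pos μ κ {α | α ∈ E en c ∧ α ∉ Y} := by
  obtain ⟨x, hx⟩ := (hEA en hen).2.2.1 Y hY κ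
  intro h
  refine hc.ult x ⟨hP.mono fun b hb hbE _ => ⟨hbE.1, ?_⟩, h.mono fun b hb hbE _ => ⟨hbE.1, ?_⟩⟩
  · rw [hx]
    exact ⟨hbE.2, hb⟩
  · rw [hx]
    exact fun h => hbE.2 h.1

theorem X (hEA : T_EA.{u}) (hVA : T_VA.{u}) (hVD : T_VD.{u}) : T_KA.{u} := by
  classical
  intro en hen M K hK hK0 hat hS
  have hcofK : K.ord.cof = K := hK.cof_ord
  have hcof : ℵ₀ < K.ord.cof := by rw [hcofK]; exact hK0
  have hlim : IsSuccLimit K.ord := by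
    rw [← Ordinal.one_lt_cof_iff]
    exact (Cardinal.one_lt_aleph0).trans hcof
  have h2 := (hEA en hen).2.1
  have hDS : DS {α : Ordinal.{u} | SingHOD α} := by
    refine DO.congr (A := fun w => ∃ τ < w 0, ∃ c, G en c τ (w 0)) ?_
      fun w => sing_iff hEA hen (w 0)
    refine DO.exLt 0 (R := fun t w => ∃ c, G en c t (w 0)) ?_
    exact DO.ex (R := fun c w => G en c (w 0) (w 1)) (do_G h2 0 1 2)
  obtain ⟨c0, hc0, hA⟩ := hat _ hDS hS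
  -- the least length
  have hT : ∀ α ∈ E en c0, ∃ τ, T en α τ := by
    intro α hα
    obtain ⟨τ, hτ, c, hc⟩ := (sing_iff hEA hen α).1 (hc0 hα)
    obtain ⟨τ0, hτ0, hmin⟩ := HD.exists_min {t : Ordinal.{u} | t < α ∧ ∃ c, G en c t α}
      ⟨τ, hτ, c, hc⟩ id
    refine ⟨τ0, hτ0.1, hτ0.2, fun t ht hG => ?_⟩
    exact absurd (hmin t ⟨ht.trans hτ0.1, hG⟩) (not_le.2 ht)
  choose! t ht using hT
  obtain ⟨τ, hτ, hPτ⟩ := hVD M.ord K hK hK0 (E en c0) t hA.pos fun b hb _ _ => (ht b hb).1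
  -- the values
  have hDT : DS {α : Ordinal.{u} | T en α τ} :=
    DO.sub τ (R := fun s w => T en (w 0) s) (do_T h2 1 0)
  have hY : ∀ a b : Ordinal.{u}, DS {α : Ordinal.{u} | T en α τ ∧ ∃ c, Q en α τ c ∧
      b ∈ E2 en c a} := by
    intro a b
    refine DO.sub τ (R := fun s w => T en (w 0) s ∧ ∃ c, Q en (w 0) s c ∧ b ∈ E2 en c a) ?_
    refine DO.sub a (R := fun a w => T en (w 1) (w 0) ∧ ∃ c, Q en (w 1) (w 0) c ∧
      b ∈ E2 en c a) ?_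
    refine DO.sub b (R := fun b w => T en (w 2) (w 1) ∧ ∃ c, Q en (w 2) (w 1) c ∧
      b ∈ E2 en c (w 0)) ?_
    refine (do_T h2 3 2).and ?_
    refine DO.ex (R := fun c w => Q en (w 3) (w 2) c ∧ w 0 ∈ E2 en c (w 1)) ?_
    exact (do_Q h2 4 3 0).and (m3 h2 1 2 0)
  have hQ : ∀ α ∈ E en c0, T en α τ → ∃ c, Q en α τ c := by
    intro α _ hTα
    obtain ⟨c, hc, hmin⟩ := HD.exists_min {c : Ordinal.{u} | G en c τ α} hTα.2.1 id
    exact ⟨c, hc, fun c' hc' hG => absurd (hmin c' hG) (not_le.2 hc')⟩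
  have hPT : Pos M.ord K.ord {α | α ∈ E en c0 ∧ T en α τ} :=
    hPτ.mono fun b _ hb _ => ⟨hb.1, by have := ht b hb.1; rw [hb.2] at this; exact this⟩
  have hval : ∀ a < τ, ∃ b, ¬ Pos M.ord K.ord {α | α ∈ E en c0 ∧
      α ∉ {α : Ordinal.{u} | T en α τ ∧ ∃ c, Q en α τ c ∧ b ∈ E2 en c a}} := by
    intro a ha
    have h1 : ∀ α ∈ {α | α ∈ E en c0 ∧ T en α τ}, ∃ b < α, ∃ c, Q en α τ c ∧
        b ∈ E2 en c a := by
      rintro α ⟨hα, hTα⟩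
      obtain ⟨c, hc⟩ := hQ α hα hTα
      obtain ⟨b, hb, hbE, -⟩ := hc.1.1 a ha
      exact ⟨b, hb, c, hc, hbE⟩
    choose! v hv using h1
    obtain ⟨b, hb, hPb⟩ := hVD M.ord K hK hK0 _ v hPT fun α hα _ _ => (hv α hα).1
    refine ⟨b, ultra hEA hen hA (hY a b) (hPb.mono fun α _ hα _ => ⟨hα.1.1, hα.1.2, ?_⟩)⟩
    have := (hv α hα.1).2
    rw [hα.2] at this
    exact this
  choose! g hg using hval
  have hnull := hVA M.ord K.ord hcof τ (by rw [hcofK]; exact Cardinal.lt_ord.1 hτ) _ hg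
  have hPQ := pos_diff hVA hcof hPT hnull
  -- two elements
  have hclub : ∀ a < K.ord, Clb K.ord (Ioi a) := by
    intro a ha
    refine ⟨fun b hb => ⟨succ (max a b), hlim.succ_lt (max_lt ha hb), ?_, ?_⟩, fun x _ h0 h => ?_⟩
    · exact lt_succ_iff.2 (le_max_right _ _)
    · exact mem_Ioi.2 (lt_succ_iff.2 (le_max_left _ _))
    · obtain ⟨z, hz, -, haz⟩ := h 0 h0
      exact lt_trans haz hz
  obtain ⟨α, hαK, -, hα, -⟩ := hPQ univ ⟨fun a ha => ⟨succ a, hlim.succ_lt ha, lt_succ a,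
    trivial⟩, fun _ _ _ _ => trivial⟩
  obtain ⟨β, hβK, hαβ, hβ, -⟩ := hPQ (Ioi α) (hclub α hαK)
  have hall : ∀ γ ∈ {α | α ∈ E en c0 ∧ T en α τ} \ {b | ∃ i < τ, b ∈ {α | α ∈ E en c0 ∧
      α ∉ {α : Ordinal.{u} | T en α τ ∧ ∃ c, Q en α τ c ∧ g i ∈ E2 en c i}}},
      ∀ a < τ, ∃ c, Q en γ τ c ∧ g a ∈ E2 en c a := by
    intro γ hγ a ha
    by_contra hcon
    exact hγ.2 ⟨a, ha, hγ.1.1, fun h => hcon h.2⟩
  obtain ⟨c, hc⟩ := hQ β hβ.1.1 hβ.1.2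
  obtain ⟨a, ha, b', hb', hE'⟩ := hc.1.2 α hαβ
  obtain ⟨c1, hc1, hg1⟩ := hall β hβ a ha
  obtain ⟨c2, hc2, hg2⟩ := hall α hα a ha
  rw [← hc.uniq hc1] at hg1
  obtain ⟨b1, -, -, hu1⟩ := hc.1.1 a ha
  obtain ⟨b2, hb2, -, hu2⟩ := hc2.1.1 a ha
  have e1 : b' = g a := by rw [hu1 _ hE', hu1 _ hg1]
  have e2 : g a = b2 := hu2 _ hg2
  rw [e1, e2] at hb'
  exact absurd hb2 (not_lt.2 hb')

end Pool.Agent.H43.HD.KA
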