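import Pool.Agent.H7.HD.Targets2

/-!
# (KB) from points of countable cofinality to a club
-/

open Ordinal Cardinal Order Set
open scoped ZFSet

universe u

namespace Pool.Agent.H43.HD.KB

open _root_.HD

theorem exists_iter {ρ : Ordinal.{u}} (hρ : ℵ₀ < ρ.cof) (P : Ordinal.{u} → Ordinal.{u} → Prop)
    (hP : ∀ b < ρ, ∃ b' < ρ, b < b' ∧ P b b') (a : Ordinal.{u}) (ha : a < ρ) :
    ∃ x < ρ, ∃ s : ℕ → Ordinal.{u}, s 0 = a ∧ (∀ n, s n < x) ∧ (∀ n, s n < s (n + 1)) ∧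
      (∀ n, P (s n) (s (n + 1))) ∧ (∀ y < x, ∃ n, y < s n) ∧ Cf ω x := by
  classical
  choose! g hg using hP
  let s : ℕ → Ordinal.{u} := fun n => Nat.rec a (fun _ b => g b) n
  have hs : ∀ n, s (n + 1) = g (s n) := fun n => rfl
  have hlt : ∀ n, s n < ρ := by
    intro n
    induction n with
    | zero => exact ha
    | succ n ih => rw [hs]; exact (hg _ ih).1
  have hmono : ∀ n, s n < s (n + 1) := fun n => by rw [hs]; exact (hg _ (hlt n)).2.1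
  have hsm : StrictMono s := strictMono_nat_of_lt_succ hmono
  have hsx : ∀ n, s n ≤ ⨆ n, s n := fun n => Ordinal.le_iSup s n
  refine ⟨⨆ n, s n, ?_, s, rfl, ?_, hmono, ?_, ?_, ?_⟩
  · refine lift_iSup_lt_of_lt_cof ?_ hlt
    simpa using hρ
  · intro n
    exact lt_of_lt_of_le (hmono n) (hsx (n + 1))
  · intro n
    rw [hs]
    exact (hg _ (hlt n)).2.2
  · intro y hy
    exact (Ordinal.lt_iSup_iff).1 hy
  · have h1 : Cardinal.lift.{0} (cof (⨆ n, s n)) = Cardinal.lift.{u} (Order.cof ℕ) :=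
      lift_cof_iSup hsm
    unfold Cf
    have h2 : (⨆ n, s n).cof = ℵ₀ := by simpa using h1
    rw [h2, Cardinal.ord_aleph0]

/-- a cofinal function in HOD on an ordinal of uncountable cofinality -/
theorem step {α τ : Ordinal.{u}} (hα : ℵ₀ < α.cof) (hτα : τ < α) {f : ZFSet.{u}} (hf : HOD f)
    (hfn : ZFSet.IsFunc τ.toZFSet α.toZFSet f)
    (hcf : ∀ b < α, ∃ a < τ, ∃ c, b ≤ c ∧ ZFSet.pair a.toZFSet c.toZFSet ∈ f)
    (C : Set Ordinal.{u}) (hC : ∀ y < α, ∃ z < α, y < z ∧ z ∈ C)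
    (hcl : ∀ x < α, 0 < x → (∀ y < x, ∃ z < x, y < z ∧ z ∈ C) → x ∈ C) :
    ∃ b < α, b ∈ C ∧ SingHOD b ∧ Cf ω b := by
  classical
  have hlim : IsSuccLimit α := by
    rw [← Ordinal.one_lt_cof_iff]
    exact (Cardinal.one_lt_aleph0).trans hα
  -- the values
  have hval : ∀ a < τ, ∃ c < α, ZFSet.pair a.toZFSet c.toZFSet ∈ f ∧
      ∀ c', ZFSet.pair a.toZFSet c' ∈ f → c' = c.toZFSet := by
    intro a ha
    obtain ⟨x, hx, hux⟩ := hfn.2 a.toZFSet (toZFSet_mem_toZFSet_iff.2 ha)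
    obtain ⟨c, hc, rfl⟩ := mem_toZFSet_iff.1 (ZFSet.pair_mem_prod.1 (hfn.1 hx)).2
    exact ⟨c, hc, hx, hux⟩
  choose! F hF using hval
  have hcF : ∀ b < α, ∃ a < τ, b ≤ F a := by
    intro b hb
    obtain ⟨a, ha, c, hbc, hp⟩ := hcf b hb
    refine ⟨a, ha, ?_⟩
    have := (hF a ha).2.2 _ hp
    rw [← toZFSet_injective this]
    exact hbc
  -- the least length on which the function is unbounded
  have hne : {x : Ordinal.{u} | ¬ ∃ b < α, ∀ i < x, F i < b}.Nonempty := by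
    refine ⟨τ, ?_⟩
    rintro ⟨b, hb, h⟩
    obtain ⟨a, ha, hba⟩ := hcF b hb
    exact absurd (h a ha) (not_lt.2 hba)
  obtain ⟨τ', hτ', hmin⟩ := HD.exists_min _ hne id
  have hle : τ' ≤ τ := by
    refine hmin τ ?_
    rintro ⟨b, hb, h⟩
    obtain ⟨a, ha, hba⟩ := hcF b hb
    exact absurd (h a ha) (not_lt.2 hba)
  have hbd : ∀ i < τ', ∃ b < α, ∀ k ≤ i, F k < b := by
    intro i hi
    have h1 : ∃ b < α, ∀ k < i, F k < b := by
      by_contra h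
      exact absurd hi (not_lt.2 (hmin i h))
    obtain ⟨b, hb, h⟩ := h1
    refine ⟨max b (succ (F i)), max_lt hb (hlim.succ_lt (hF i (hi.trans_le hle)).1), ?_⟩
    intro k hk
    rcases hk.lt_or_eq with hk | rfl
    · exact lt_of_lt_of_le (h k hk) (le_max_left _ _)
    · exact lt_of_lt_of_le (lt_succ _) (le_max_right _ _)
  have hun : ∀ b < α, ∃ i < τ', b ≤ F i := by
    intro b hb
    by_contra hcon
    push Not at hcon
    exact hτ' ⟨b, hb, hcon⟩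
  obtain ⟨x, hx, s, hs0, hsx, hmono, hsP, hsy, hxω⟩ := exists_iter hα
    (fun z z' => z' ∈ C ∧ ∃ i < τ', z ≤ F i ∧ ∀ k ≤ i, F k < z') (fun z hz => by
      obtain ⟨i, hi, hzi⟩ := hun z hz
      obtain ⟨b, hb, h⟩ := hbd i hi
      obtain ⟨z', hz', hbz, hzC⟩ := hC b hb
      exact ⟨z', hz', (hzi.trans_lt (h i le_rfl)).trans hbz, hzC, i, hi, hzi, fun k hk =>
        (h k hk).trans hbz⟩) τ hτα
  choose hsC i hi using hsP
  have hx0 : 0 < x := (zero_le (a := s 0)).trans_lt (hsx 0)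
  refine ⟨x, hx, ?_, ?_, hxω⟩
  · refine hcl x hx hx0 fun y hy => ?_
    obtain ⟨n, hn⟩ := hsy y hy
    exact ⟨s (n + 1), hsx _, hn.trans (hmono n), hsC n⟩
  · -- singular in HOD
    have hξ : ∀ n, i n + 1 ≤ ⨆ n, (i n + 1) := fun n => Ordinal.le_iSup (fun n => i n + 1) n
    set ξ := ⨆ n, (i n + 1) with hξd
    have hξτ : ξ ≤ τ := by
      rw [hξd]
      refine Ordinal.iSup_le fun n => ?_
      exact (add_one_le_iff.2 (hi n).1).trans hle
    have hlt : ∀ k < ξ, ∃ n, k ≤ i n := by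
      intro k hk
      obtain ⟨n, hn⟩ := (Ordinal.lt_iSup_iff).1 hk
      exact ⟨n, lt_add_one_iff.1 hn⟩
    refine ⟨ξ, hξτ.trans_lt (hs0 ▸ hsx 0), rs ξ x (fun a c => ZFSet.pair a.toZFSet c.toZFSet ∈ f),
      hod_rs hf.od.dr ξ x, ⟨?_, ?_⟩, ?_⟩
    · intro p hp
      obtain ⟨a, ha, c, hc, -, rfl⟩ := mem_rs.1 hp
      exact ZFSet.pair_mem_prod.2 ⟨toZFSet_mem_toZFSet_iff.2 ha, toZFSet_mem_toZFSet_iff.2 hc⟩
    · intro z hz
      obtain ⟨a, ha, rfl⟩ := mem_toZFSet_iff.1 hz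
      obtain ⟨n, hn⟩ := hlt a ha
      have haτ := ha.trans_le hξτ
      refine ⟨(F a).toZFSet, pair_mem_rs.2 ⟨ha, ((hi n).2.2 a hn).trans (hsx _), (hF a haτ).2.1⟩,
        ?_⟩
      intro y hy
      obtain ⟨a', ha', c, hc, h1, h2⟩ := mem_rs.1 hy
      obtain ⟨h3, h4⟩ := ZFSet.pair_injective h2
      rw [h4]
      rw [← h3] at h1
      exact (hF a haτ).2.2 _ h1
    · intro y hy
      obtain ⟨n, hn⟩ := hsy y hy
      have hiξ : i n < ξ := lt_of_lt_of_le (lt_add_one _) (hξ n)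
      refine ⟨i n, hiξ, F (i n), hn.le.trans (hi n).2.1, pair_mem_rs.2 ⟨hiξ, ?_, ?_⟩⟩
      · exact ((hi n).2.2 _ le_rfl).trans (hsx _)
      · exact (hF _ (hiξ.trans_le hξτ)).2.1

theorem X (hVE : T_VE.{u}) : T_KB.{u} := by
  classical
  intro K hK hK0 hS
  unfold Pos at hS
  push Not at hS
  obtain ⟨C, hC, hno⟩ := hS
  have hunb := hC.unb
  choose! g hg using hunb
  refine ⟨_, hVE K hK hK0 g fun x hx => (hg x hx).1, ?_⟩
  rintro α ⟨h0, hα⟩ hαK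
  have hu : ∀ y < α, ∃ z < α, y < z ∧ z ∈ C := fun y hy =>
    ⟨g y, hα y hy, (hg y (hy.trans hαK)).2.1, (hg y (hy.trans hαK)).2.2⟩
  have hlim : IsSuccLimit α := by
    rw [Order.isSuccLimit_iff, isMin_iff_eq_bot]
    refine ⟨?_, ?_⟩
    · intro h
      rw [h] at h0
      exact absurd h0 (by simp)
    · intro a ha
      obtain ⟨z, hz, haz, -⟩ := hu a ha.lt
      exact ha.2 haz hz
  refine ⟨hlim, ?_⟩
  rintro ⟨τ, hτ, f, hf, hfn, hcf⟩
  have hω : (ℵ₀ : Cardinal.{u}).ord = ω := Cardinal.ord_aleph0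
  rw [hω] at hno
  have hcof : ℵ₀ ≤ α.cof := Ordinal.aleph0_le_cof_iff.2 (Ordinal.one_lt_cof_iff.2 hlim)
  rcases hcof.lt_or_eq with h | h
  · obtain ⟨b, hb, hbC, hbS, hbω⟩ := step h hτ hf hfn hcf C hu
      (fun x hx => hC.cls x (hx.trans hαK))
    exact hno b (hb.trans hαK) hbC hbS hbω
  · refine hno α hαK (hC.cls α hαK h0 hu) ⟨τ, hτ, f, hf, hfn, hcf⟩ ?_
    unfold Cf
    rw [← h, hω]

end Pool.Agent.H43.HD.KB
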