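import Pool.Agent.H7.HD.Targets2

/-!
# (UA) atoms give uniform weakly normal ultrafilters of HOD
-/

open Ordinal Cardinal Order Set
open scoped ZFSet

universe u

namespace Pool.Agent.H43.HD.UA

open _root_.HD

/-- positivity for fixed ordinals -/
theorem posDO (hDA : T_DA.{u}) (μ κ : Ordinal.{u}) {X : Ordinal.{u} → (ℕ → Ordinal.{u}) → Prop}
    (hX : DO fun w => X (w 0) (fun n => w (n + 1))) : DO fun w => Pos μ κ {a | X a w} := by
  refine DO.sub μ (R := fun m w => Pos m κ {a | X a w}) ?_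
  refine DO.sub κ (R := fun k w => Pos (w 0) k {a | X a (fun n => w (n + 1))}) ?_
  refine hDA 1 0 (fun a w => X a (fun n => w (n + 2))) ?_
  exact hX.ren (fun n => Nat.casesOn n 0 fun m => m + 3)

theorem posD (hDA : T_DA.{u}) {en : Ordinal.{u} → ZFSet.{u}}
    (hE : DO fun w => w 0 ∈ E en (w 1)) (μ κ : Ordinal.{u}) (i k : ℕ) :
    DO fun w => Pos μ κ (E en (w i) \ E en (w k)) :=
  posDO hDA μ κ (X := fun a w => a ∈ E en (w i) ∧ ¬ a ∈ E en (w k))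
    ((hE.s2 (X := fun x y => x ∈ E en y) 0 (i + 1)).and
      (hE.s2 (X := fun x y => x ∈ E en y) 0 (k + 1)).not)

/-- the set of ordinals of `x` -/
def S (x : ZFSet.{u}) : Set Ordinal.{u} := {a | a.toZFSet ∈ x}

theorem mem_S {x : ZFSet.{u}} {a : Ordinal.{u}} : a ∈ S x ↔ a.toZFSet ∈ x := Iff.rfl

theorem mem_uz {en : Ordinal.{u} → ZFSet.{u}} {μ α c : Ordinal.{u}} {x : ZFSet.{u}} :
    x ∈ uz en μ α c ↔ x ⊆ α.toZFSet ∧ OD x ∧ ¬ Pos μ α (E en c \ S x) := by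
  unfold uz
  rw [ZFSet.mem_sep, ZFSet.mem_powerset]
  rfl

theorem od_uz (hDA : T_DA.{u}) {en : Ordinal.{u} → ZFSet.{u}} (hen : EN en)
    (hE : DO fun w => w 0 ∈ E en (w 1)) (μ α c : Ordinal.{u}) : OD (uz en μ α c) := by
  have h1 : DO fun w => ¬ Pos μ α (E en c \ E en (w 0)) :=
    (DO.sub c (R := fun c w => Pos μ α (E en c \ E en (w 0))) (posD hDA hE μ α 0 1)).not
  obtain ⟨Q, hQ, hQ'⟩ := h1
  refine OD.of_mem (P := fun v => v 0 ⊆ α.toZFSet ∧ ∃ z, (z.IsOrdinal ∧ v 0 = en z.rank) ∧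
    Q (fun _ => z)) ?_ fun v => ?_
  · refine DZ.and (DZ.od (R := fun a v => v 0 ⊆ a) (OD.ordinal α) (Loc.sub 1 0).dz) ?_
    refine DZ.ex (R := fun z v => (z.IsOrdinal ∧ v 0 = en z.rank) ∧ Q (fun _ => z)) ?_
    exact (hen.dz).and (hQ.ren fun _ => 0)
  · rw [mem_uz]
    refine and_congr_right fun _ => ?_
    constructor
    · rintro ⟨z, ⟨hz, h2⟩, h3⟩
      refine ⟨(hen.od _).2 ⟨z.rank, h2.symm⟩, ?_⟩
      have h4 : z = z.rank.toZFSet := hz.toZFSet_rank_eq.symm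
      rw [h4] at h3
      have h5 := (hQ' (fun _ => z.rank)).2 h3
      rw [h2]
      exact h5
    · rintro ⟨h2, h3⟩
      obtain ⟨c', hc'⟩ := (hen.od _).1 h2
      refine ⟨c'.toZFSet, ⟨ZFSet.isOrdinal_toZFSet c', by rw [rank_toZFSet, hc']⟩, ?_⟩
      refine (hQ' (fun _ => c')).1 ?_
      rw [← hc'] at h3
      exact h3

theorem od_diff {x : ZFSet.{u}} (hx : OD x) (α : Ordinal.{u}) : OD (α.toZFSet \ x) := by
  refine OD.of_ds (β := α) (fun z hz => (ZFSet.mem_sdiff.1 hz).1) ?_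
  refine DO.congr (A := fun w => w 0 < α ∧ ¬ (w 0).toZFSet ∈ x) ((DO.ltc 0 α).and hx.ds.not)
    fun w => ?_
  show (w 0).toZFSet ∈ α.toZFSet \ x ↔ _
  rw [ZFSet.mem_sdiff, toZFSet_mem_toZFSet_iff]

theorem X (hEA : T_EA.{u}) (hDA : T_DA.{u}) (hVA : T_VA.{u}) (hVB : T_VB.{u}) (hUV : T_UV.{u}) :
    T_UA.{u} := by
  intro en hen μ α c hcof hc
  have hE := (hEA en hen).1
  have hlim : IsSuccLimit α := by
    rw [← Ordinal.one_lt_cof_iff]
    exact (Cardinal.one_lt_aleph0).trans hcof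
  refine ⟨?_, ?_, ?_, ?_, ?_, ?_, ?_⟩
  · -- hod
    refine hod_iff.2 ⟨od_uz hDA hen hE μ α c, fun y hy => ?_⟩
    rw [mem_uz] at hy
    exact HOD.of_sub hy.2.1 hy.1
  · -- sub
    intro x hx
    exact (mem_uz.1 hx).1
  · -- ultra
    intro x hx hxα
    constructor
    · intro h1 h2
      rw [mem_uz] at h1 h2
      refine null_union hVA hcof h1.2.2 h2.2.2 (hc.pos.mono fun b hb hbE _ => ?_)
      by_cases hbx : b ∈ S x
      · refine Or.inr ⟨hbE, fun h3 => ?_⟩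
        exact (ZFSet.mem_sdiff.1 (mem_S.1 h3)).2 (mem_S.1 hbx)
      · exact Or.inl ⟨hbE, hbx⟩
    · intro h1
      refine mem_uz.2 ⟨hxα, hx.od, ?_⟩
      have h2 : Pos μ α (E en c \ S (α.toZFSet \ x)) := by
        by_contra h3
        exact h1 (mem_uz.2 ⟨fun z hz => (ZFSet.mem_sdiff.1 hz).1, od_diff hx.od α, h3⟩)
      obtain ⟨x', rfl⟩ := (hen.od _).1 hx.od
      intro h3
      refine hc.ult x' ⟨h2.mono fun b hb hbE _ => ⟨hbE.1, ?_⟩, h3⟩
      by_contra hbx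
      exact hbE.2 (ZFSet.mem_sdiff.2 ⟨toZFSet_mem_toZFSet_iff.2 hb, hbx⟩)
  · -- up
    intro x hx y hy hxy hyα
    rw [mem_uz] at hx ⊢
    refine ⟨hyα, hy.od, fun h1 => hx.2.2 (h1.mono fun b _ hb _ => ⟨hb.1, fun h2 => ?_⟩)⟩
    exact hb.2 (mem_S.2 (hxy (mem_S.1 h2)))
  · -- unif
    intro x hx b hb
    by_contra hcon
    push Not at hcon
    rw [mem_uz] at hx
    refine null_union hVA hcof hx.2.2 (hVB μ α b hlim hb) (hc.pos.mono fun a _ haE _ => ?_)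
    by_cases hax : a ∈ S x
    · refine Or.inr ?_
      show a < b
      by_contra h
      exact hcon a (not_lt.1 h) (mem_S.1 hax)
    · exact Or.inl ⟨haE, hax⟩
  · -- compl
    intro τ hτ f hf hfn
    refine mem_uz.2 ⟨fun z hz => (ZFSet.mem_sep.1 hz).1, ?_, fun h2 => ?_⟩
    · refine OD.of_mem (P := fun v => v 0 ∈ α.toZFSet ∧ ∀ a, ∀ x, ZFSet.pair a x ∈ f →
        v 0 ∈ x) ?_ fun v => ?_
      · refine DZ.and (DZ.od (R := fun a v => v 0 ∈ a) (OD.ordinal α) (DZ.mem 1 0)) ?_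
        refine DZ.od (R := fun F v => ∀ a, ∀ x, ZFSet.pair a x ∈ F → v 0 ∈ x) hf.od ?_
        refine DZ.all (R := fun a v => ∀ x, ZFSet.pair a x ∈ v 0 → v 1 ∈ x) ?_
        refine DZ.all (R := fun x v => ZFSet.pair (v 0) x ∈ v 1 → v 2 ∈ x) ?_
        exact (loc_pmem 1 0 2).dz.imp (DZ.mem 3 0)
      · rw [ZFSet.mem_sep]
    · refine hVA μ α hcof τ (Cardinal.lt_ord.1 hτ)
        (fun i => {b | b ∈ E en c ∧ ∃ x, ZFSet.pair i.toZFSet x ∈ f ∧ b.toZFSet ∉ x})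
        (fun i hi => ?_) (h2.mono fun b hb hbE _ => ?_)
      · obtain ⟨x, hx, hux⟩ := hfn.2 i.toZFSet (toZFSet_mem_toZFSet_iff.2 hi)
        have hxU : x ∈ uz en μ α c := (ZFSet.pair_mem_prod.1 (hfn.1 hx)).2
        rw [mem_uz] at hxU
        intro hP
        refine hxU.2.2 (hP.mono fun b hb hbE _ => ⟨hbE.1, fun h3 => ?_⟩)
        obtain ⟨-, x', hx', hbx'⟩ := hbE
        rw [hux x' hx'] at hbx'
        exact hbx' (mem_S.1 h3)
      · by_contra hcon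
        refine hbE.2 (mem_S.2 (ZFSet.mem_sep.2 ⟨toZFSet_mem_toZFSet_iff.2 hb, fun a x hp => ?_⟩))
        have hp' := ZFSet.pair_mem_prod.1 (hfn.1 hp)
        obtain ⟨a, ha', rfl⟩ := mem_toZFSet_iff.1 hp'.1
        by_contra hbx
        exact hcon ⟨a, ha', hbE.1, x, hp, hbx⟩
  · -- wn
    intro f hf hfn hX
    classical
    rw [mem_uz] at hX
    have h1 := pos_diff hVA hcof hc.pos hX.2.2
    have h2 : Pos μ α {a | a ∈ E en c ∧ ∃ b < a, ZFSet.pair a.toZFSet b.toZFSet ∈ f} := by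
      refine h1.mono fun a ha haE _ => ⟨haE.1, ?_⟩
      have h3 : a ∈ S ((α.toZFSet).sep (fun a => ∃ b ∈ a, ZFSet.pair a b ∈ f)) := by
        by_contra h4
        exact haE.2 ⟨haE.1, h4⟩
      obtain ⟨-, b, hb, hp⟩ := ZFSet.mem_sep.1 (mem_S.1 h3)
      obtain ⟨b, hb', rfl⟩ := mem_toZFSet_iff.1 hb
      exact ⟨b, hb', hp⟩
    let h : Ordinal.{u} → Ordinal.{u} := fun a =>
      if H : ∃ b < a, ZFSet.pair a.toZFSet b.toZFSet ∈ f then Classical.choose H else 0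
    have hh : ∀ a, (∃ b < a, ZFSet.pair a.toZFSet b.toZFSet ∈ f) →
        h a < a ∧ ZFSet.pair a.toZFSet (h a).toZFSet ∈ f := by
      intro a H
      have e : h a = Classical.choose H := dif_pos H
      rw [e]
      exact Classical.choose_spec H
    obtain ⟨c', hc', h4⟩ := hUV μ α hcof _ h h2 fun a ha _ _ => (hh a ha.2).1
    refine ⟨c', hc', ?_⟩
    have hOD : OD ((α.toZFSet).sep (fun a => ∃ b ∈ c'.toZFSet, ZFSet.pair a b ∈ f)) := by
      refine OD.of_mem (P := fun v => v 0 ∈ α.toZFSet ∧ ∃ b ∈ c'.toZFSet, ZFSet.pair (v 0) b ∈ f)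
        ?_ fun v => ?_
      · refine DZ.and (DZ.od (R := fun a v => v 0 ∈ a) (OD.ordinal α) (DZ.mem 1 0)) ?_
        refine DZ.od (R := fun F v => ∃ b ∈ c'.toZFSet, ZFSet.pair (v 0) b ∈ F) hf.od ?_
        refine DZ.od (R := fun d v => ∃ b ∈ d, ZFSet.pair (v 1) b ∈ v 0) (OD.ordinal c') ?_
        exact DZ.exMem (R := fun b v => ZFSet.pair (v 2) b ∈ v 1) 0 (loc_pmem 3 0 2).dz
      · rw [ZFSet.mem_sep]
    refine mem_uz.2 ⟨fun z hz => (ZFSet.mem_sep.1 hz).1, hOD, ?_⟩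
    obtain ⟨x', hx'⟩ := (hen.od _).1 hOD
    intro h5
    refine hc.ult x' ⟨h4.mono fun a ha haE _ => ⟨haE.1.1, ?_⟩, ?_⟩
    · show a.toZFSet ∈ en x'
      rw [hx']
      refine ZFSet.mem_sep.2 ⟨toZFSet_mem_toZFSet_iff.2 ha, (h a).toZFSet,
        toZFSet_mem_toZFSet_iff.2 haE.2, (hh a haE.1.2).2⟩
    · refine h5.mono fun a _ haE _ => ⟨haE.1, fun h6 => haE.2 ?_⟩
      have h7 : a.toZFSet ∈ en x' := h6
      rw [hx'] at h7
      exact h7

end Pool.Agent.H43.HD.UA
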